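import Mathlib
import Pool.Agent.Q169.ReExp.Fin

set_option autoImplicit false
namespace Pool.Agent.Results.MP_f617a8_an.CompletelyNonunitary
open MeasureTheory Set Filter Topology
open scoped InnerProductSpace ENNReal ComplexConjugate
open Pool.Agent.Q169.ReExp

noncomputable section

section Generic
variable {E : Type} [NormedAddCommGroup E] [InnerProductSpace ℂ E]

/-- `T` is completely nonunitary: no nonzero closed subspace `K` reducing `T` (that is, `K` and `Kᗮ`
are both invariant under `T`) exists on which `T` acts as a unitary (a norm preserving map of `K`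
onto `K`). -/
def IsCompletelyNonunitary (T : E →L[ℂ] E) : Prop :=
  ∀ K : Submodule ℂ E, IsClosed (K : Set E) → (∀ f ∈ K, T f ∈ K) → (∀ f ∈ Kᗮ, T f ∈ Kᗮ) →
    (∀ f ∈ K, ‖T f‖ = ‖f‖) → (∀ g ∈ K, ∃ f ∈ K, T f = g) → K = ⊥

/-- the intersection of the ranges of the powers `T ^ n` is `{0}` -/
def RangesMeetTrivially (T : E →L[ℂ] E) : Prop :=
  ∀ f : E, (∀ n : ℕ, ∃ g : E, (T ^ n) g = f) → f = 0

/-- the vectors `T ^ n v` are pairwise orthogonal -/
def OrbitOrthogonal (T : E →L[ℂ] E) (v : E) : Prop :=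
  ∀ m n : ℕ, m ≠ n → ⟪(T ^ m) v, (T ^ n) v⟫_ℂ = 0

/-- the closed linear span of the vectors `T ^ n v` is the whole space -/
def OrbitComplete (T : E →L[ℂ] E) (v : E) : Prop :=
  (Submodule.span ℂ (Set.range fun n : ℕ => (T ^ n) v)).topologicalClosure = ⊤

/-- `P f = ∑_{n ≥ 1} ⟨f, s_n⟩ c_n` (norm convergent) for every `f`.  (`ℂ`-inner products are
conjugate linear in the first slot in Mathlib, so `⟪s n, f⟫` is `⟨f, s_n⟩` of the problem.) -/
def IsReexpansion (s c : ℕ → E) (P : E →L[ℂ] E) : Prop :=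
  ∀ f : E, HasSum (fun n : ℕ => ⟪s (n + 1), f⟫_ℂ • c (n + 1)) (P f)

end Generic

/-- the basis `s_1, s_2, …` of `H` -/
def sB : HilbertBasis ℕ ℂ H := HilbertBasis.mkOfOrthogonalEqBot orth_s bot_s

theorem sB_apply (n : ℕ) : sB n = s (n + 1) := by
  unfold sB
  rw [HilbertBasis.coe_mkOfOrthogonalEqBot]

/-- the re-expansion isometry -/
def PI : H →ₗᵢ[ℂ] H := (orth_c.orthogonalFamily.linearIsometry).comp sB.repr.toLinearIsometry

theorem PI_hasSum (f : H) : HasSum (fun n : ℕ => ⟪s (n + 1), f⟫_ℂ • c (n + 1)) (PI f) := by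
  have h := orth_c.orthogonalFamily.hasSum_linearIsometry (sB.repr f)
  have h2 : (fun n : ℕ => ⟪s (n + 1), f⟫_ℂ • c (n + 1)) = fun i =>
      (LinearIsometry.toSpanSingleton ℂ _ (orth_c.1 i)) ((sB.repr f) i) := by
    funext n
    rw [HilbertBasis.repr_apply_apply, sB_apply]
    simp
  rw [h2]
  exact h

theorem PI_s (n : ℕ) : PI (s (n + 1)) = c (n + 1) := by
  have h := PI_hasSum (s (n + 1))
  have h2 : HasSum (fun m : ℕ => ⟪s (m + 1), s (n + 1)⟫_ℂ • c (m + 1)) (c (n + 1)) := by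
    have := hasSum_single (f := fun m : ℕ => ⟪s (m + 1), s (n + 1)⟫_ℂ • c (m + 1)) n (by
      intro m hm
      have := orth_s.2 hm
      simp only at this ⊢
      rw [this, zero_smul])
    have e : ⟪s (n + 1), s (n + 1)⟫_ℂ = 1 := by
      have h3 := orth_s.1 n
      simp only at h3
      rw [inner_self_eq_norm_sq_to_K, h3]
      simp
    simpa only [e, one_smul] using this
  exact h.unique h2

theorem one_PI (f : H) : ⟪one, PI f⟫_ℂ = 0 := by
  have h := (PI_hasSum f).mapL (innerSL ℂ one)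
  have h2 : HasSum (fun n : ℕ => (innerSL ℂ one) (⟪s (n + 1), f⟫_ℂ • c (n + 1))) 0 := by
    have : (fun n : ℕ => (innerSL ℂ one) (⟪s (n + 1), f⟫_ℂ • c (n + 1))) = fun _ => 0 := by
      funext n
      rw [innerSL_apply_apply, inner_smul_right, inner_c_one, mul_zero]
    rw [this]
    exact hasSum_zero
  exact h.unique h2

theorem c_PI (f : H) (n : ℕ) : ⟪c (n + 1), PI f⟫_ℂ = ⟪s (n + 1), f⟫_ℂ := by
  rw [← PI_s, LinearIsometry.inner_map_map]

theorem c_one (n : ℕ) : ⟪c (n + 1), one⟫_ℂ = 0 := by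
  rw [← inner_conj_symm, inner_c_one, map_zero]

theorem eig (τ : ℝ) : ∃ a : ℂ, fv τ = a • one + lam τ • PI (fv τ) := by
  refine ⟨⟪one, fv τ⟫_ℂ / Real.pi, ?_⟩
  rw [← sub_eq_zero]
  have hpi : (Real.pi : ℂ) ≠ 0 := by exact_mod_cast Real.pi_ne_zero
  apply ext_c
  · rw [inner_sub_right, inner_add_right, inner_smul_right, inner_smul_right, one_PI, inner_one_one]
    field_simp
    ring
  · intro n
    rw [inner_sub_right, inner_add_right, inner_smul_right, inner_smul_right, c_PI, c_one,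
      eig_inner]
    ring

theorem iter (τ : ℝ) (g : H) (hg : ∀ n : ℕ, ⟪(PI.toContinuousLinearMap ^ n) one, g⟫_ℂ = 0) (n : ℕ) :
    ⟪fv τ, g⟫_ℂ = conj (lam τ) ^ n * ⟪(PI.toContinuousLinearMap ^ n) (fv τ), g⟫_ℂ := by
  obtain ⟨a, ha⟩ := eig τ
  induction n with
  | zero => simp
  | succ n ih =>
    rw [ih, pow_succ (PI.toContinuousLinearMap)]
    conv_lhs => rw [ha]
    rw [map_add, map_smul, map_smul, inner_add_left, inner_smul_left, inner_smul_left, hg,
      mul_zero, zero_add, pow_succ, mul_assoc]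
    rfl

theorem norm_pow_PI (n : ℕ) (f : H) : ‖(PI.toContinuousLinearMap ^ n) f‖ = ‖f‖ := by
  induction n with
  | zero => simp
  | succ n ih =>
    rw [pow_succ', mul_apply_eq_comp, ← ih]
    exact PI.norm_map _

theorem inner_pow_PI (n : ℕ) (f g : H) :
    ⟪(PI.toContinuousLinearMap ^ n) f, (PI.toContinuousLinearMap ^ n) g⟫_ℂ = ⟪f, g⟫_ℂ := by
  induction n with
  | zero => simp
  | succ n ih =>
    rw [pow_succ', mul_apply_eq_comp, mul_apply_eq_comp, ← ih]
    exact PI.inner_map_map _ _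

theorem complete (g : H) (hg : ∀ n : ℕ, ⟪(PI.toContinuousLinearMap ^ n) one, g⟫_ℂ = 0) : g = 0 := by
  apply total
  intro τ
  have hb : ∀ n : ℕ, ‖⟪fv τ, g⟫_ℂ‖ ≤ ‖lam τ‖ ^ n * (‖fv τ‖ * ‖g‖) := by
    intro n
    rw [iter τ g hg n, norm_mul, norm_pow, RCLike.norm_conj]
    refine mul_le_mul_of_nonneg_left ?_ (by positivity)
    refine (norm_inner_le_norm _ _).trans ?_
    rw [norm_pow_PI]
  have ht : Tendsto (fun n : ℕ => ‖lam τ‖ ^ n * (‖fv τ‖ * ‖g‖)) atTop (𝓝 (0 * (‖fv τ‖ * ‖g‖))) :=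
    (tendsto_pow_atTop_nhds_zero_of_lt_one (norm_nonneg _) (lam_norm τ)).mul_const _
  rw [zero_mul] at ht
  have := ge_of_tendsto' ht hb
  exact norm_le_zero_iff.1 this

theorem inter (f : H) (hf : ∀ n : ℕ, ∃ g, (PI.toContinuousLinearMap ^ n) g = f) : f = 0 := by
  apply complete
  intro n
  obtain ⟨g, hg⟩ := hf (n + 1)
  rw [← hg, pow_succ, mul_apply_eq_comp, inner_pow_PI]
  exact one_PI g

/-- **MP_f617a8_an, Q1: yes.** The re-expansion operator `P f = ∑ ⟨f, s_n⟩ c_n` on `L²(0, π)` is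
completely nonunitary; equivalently `⋂ Pⁿ H = 0`; equivalently the orthogonal system
`{Pⁿ 1 : n ≥ 0}` is complete. -/
theorem result :
    ∃ P : H →L[ℂ] H, IsReexpansion s c P ∧ IsCompletelyNonunitary P ∧ RangesMeetTrivially P ∧
      OrbitOrthogonal P one ∧ OrbitComplete P one := by
  refine ⟨PI.toContinuousLinearMap, PI_hasSum, ?_, inter, ?_, ?_⟩
  · intro K _ _ _ _ hs
    rw [Submodule.eq_bot_iff]
    intro f hf
    apply inter
    have : ∀ n : ℕ, ∀ f ∈ K, ∃ g ∈ K, (PI.toContinuousLinearMap ^ n) g = f := by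
      intro n
      induction n with
      | zero => exact fun f hf => ⟨f, hf, by simp⟩
      | succ n ih =>
        intro f hf
        obtain ⟨g, hg, hgf⟩ := ih f hf
        obtain ⟨g', hg', hgg⟩ := hs g hg
        exact ⟨g', hg', by rw [pow_succ, mul_apply_eq_comp, hgg, hgf]⟩
    intro n
    obtain ⟨g, -, hg⟩ := this n f hf
    exact ⟨g, hg⟩
  · have key : ∀ m k : ℕ, ⟪(PI.toContinuousLinearMap ^ m) one,
        (PI.toContinuousLinearMap ^ (m + (k + 1))) one⟫_ℂ = 0 := by
      intro m k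
      rw [pow_add, mul_apply_eq_comp, inner_pow_PI, pow_succ',
        mul_apply_eq_comp]
      exact one_PI _
    intro m n hmn
    rcases lt_or_gt_of_ne hmn with h | h
    · obtain ⟨k, rfl⟩ := Nat.exists_eq_add_of_lt h
      exact key m k
    · obtain ⟨k, rfl⟩ := Nat.exists_eq_add_of_lt h
      rw [← inner_conj_symm]
      have := key n k
      rw [← add_assoc] at this
      rw [this, map_zero]
  · unfold OrbitComplete
    rw [Submodule.topologicalClosure_eq_top_iff, Submodule.eq_bot_iff]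
    intro g hg
    apply complete
    intro n
    exact (Submodule.mem_orthogonal _ _).1 hg _ (Submodule.subset_span ⟨n, rfl⟩)

end

end Pool.Agent.Results.MP_f617a8_an.CompletelyNonunitary
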